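import Pool.Agent.H65.AD.TargetsA

/-!
# Almost all discriminants, board adm_modules: row CHV
-/

set_option autoImplicit false

namespace Pool.Agent.H68.ADM

open Pool.Agent.H31.CN Pool.Agent.H95.AD Pool.Agent.H50.CN Pool.Agent.H65.AD

theorem pf_CHV : T_CHV := by
  intro D p hD hp
  unfold chi
  by_cases h2 : p = 2
  · rw [if_pos h2]
    subst h2
    have hnd : ¬ 2 ∣ D := by omega
    split_ifs
    · refine ⟨Or.inl rfl, ?_⟩
      constructor
      · intro h; exact absurd h (by norm_num)
      · intro h; exact absurd h hnd
    · refine ⟨Or.inr (Or.inr rfl), ?_⟩
      constructor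
      · intro h; exact absurd h (by norm_num)
      · intro h; exact absurd h hnd
  · rw [if_neg h2]
    have hodd : p % 2 = 1 := by
      rcases hp.eq_two_or_odd with h | h
      · exact absurd h h2
      · exact h
    have hpp : Prime (p : ℤ) := Nat.prime_iff_prime_int.1 hp
    unfold nrt
    set S : Finset ℕ := (Finset.range p).filter
      (fun j : ℕ => (p : ℤ) ∣ 1 * (j : ℤ) ^ 2 + 0 * (j : ℤ) + (D : ℤ)) with hS
    have hmem : ∀ j, j ∈ S ↔ j < p ∧ (p : ℤ) ∣ (j : ℤ) ^ 2 + D := by
      intro j
      rw [hS, Finset.mem_filter, Finset.mem_range, one_mul, zero_mul, add_zero]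
    by_cases hpD : p ∣ D
    · have h1 : S = {0} := by
        ext j
        rw [hmem, Finset.mem_singleton]
        constructor
        · rintro ⟨hj, hd⟩
          have h3 : (p : ℤ) ∣ (j : ℤ) ^ 2 := by
            have h4 : (p : ℤ) ∣ (D : ℤ) := Int.natCast_dvd_natCast.2 hpD
            exact (dvd_add_left h4).1 hd
          have h5 : (p : ℤ) ∣ (j : ℤ) := hpp.dvd_of_dvd_pow h3
          have h6 : p ∣ j := Int.natCast_dvd_natCast.1 h5
          exact Nat.eq_zero_of_dvd_of_lt h6 hj
        · rintro rfl
          refine ⟨hp.pos, ?_⟩
          have h4 : (p : ℤ) ∣ (D : ℤ) := Int.natCast_dvd_natCast.2 hpD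
          simpa using h4
      rw [h1, Finset.card_singleton]
      refine ⟨Or.inr (Or.inl (by norm_num)), ?_⟩
      constructor
      · intro _; exact hpD
      · intro _; norm_num
    · rcases S.eq_empty_or_nonempty with h1 | ⟨j, hj⟩
      · rw [h1, Finset.card_empty]
        refine ⟨Or.inr (Or.inr (by norm_num)), ?_⟩
        constructor
        · intro h; exact absurd h (by norm_num)
        · intro h; exact absurd h hpD
      · obtain ⟨hj1, hj2⟩ := (hmem j).1 hj
        have hj0 : j ≠ 0 := by
          rintro rfl
          apply hpD
          have h3 : (p : ℤ) ∣ (D : ℤ) := by simpa using hj2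
          exact Int.natCast_dvd_natCast.1 h3
        have h1 : S = {j, p - j} := by
          ext i
          rw [hmem, Finset.mem_insert, Finset.mem_singleton]
          constructor
          · rintro ⟨hi1, hi2⟩
            have h3 : (p : ℤ) ∣ ((i : ℤ) - j) * ((i : ℤ) + j) := by
              have h4 := dvd_sub hi2 hj2
              have h5 : (i : ℤ) ^ 2 + D - ((j : ℤ) ^ 2 + D) = ((i : ℤ) - j) * ((i : ℤ) + j) := by
                ring
              rwa [h5] at h4
            rcases hpp.dvd_or_dvd h3 with h4 | h4
            · left
              obtain ⟨c, hc⟩ := h4
              have h5 : c < 1 := by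
                by_contra h6
                have : (p : ℤ) * 1 ≤ p * c := by
                  apply mul_le_mul_of_nonneg_left (by omega) (by positivity)
                omega
              have h6 : -1 < c := by
                by_contra h7
                have : (p : ℤ) * c ≤ p * (-1) := by
                  apply mul_le_mul_of_nonneg_left (by omega) (by positivity)
                omega
              have h7 : c = 0 := by omega
              rw [h7] at hc
              omega
            · right
              have h5 : p ∣ i + j := by exact_mod_cast h4
              obtain ⟨c, hc⟩ := h5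
              have h6 : c < 2 := by
                by_contra h7
                have : p * 2 ≤ p * c := Nat.mul_le_mul_left p (by omega)
                omega
              have h7 : c ≠ 0 := by
                rintro rfl
                omega
              have h8 : c = 1 := by omega
              rw [h8] at hc
              omega
          · rintro (rfl | rfl)
            · exact ⟨hj1, hj2⟩
            · refine ⟨by omega, ?_⟩
              have h3 : ((p - j : ℕ) : ℤ) = (p : ℤ) - j := by
                rw [Nat.cast_sub hj1.le]
              rw [h3]
              have h4 : ((p : ℤ) - j) ^ 2 + D = p * (p - 2 * j) + ((j : ℤ) ^ 2 + D) := by ring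
              rw [h4]
              exact dvd_add (dvd_mul_right _ _) hj2
        have h3 : S.card = 2 := by
          rw [h1, Finset.card_pair (by omega)]
        rw [h3]
        refine ⟨Or.inl (by norm_num), ?_⟩
        constructor
        · intro h; exact absurd h (by norm_num)
        · intro h; exact absurd h hpD

end Pool.Agent.H68.ADM
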