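import Pool.Agent.H95.AD.TargetsU
import Pool.Agent.H89.Cubic.Div

/-!
# Almost all discriminants, board adu_modules: row DVB
-/

set_option autoImplicit false

namespace Pool.Agent.H68.AD

open Pool.Agent.H31.CN Pool.Agent.H95.AD

theorem two_pow_card_le {n : ℕ} (hn : n ≠ 0) : 2 ^ n.primeFactors.card ≤ n.divisors.card := by
  rw [Nat.card_divisors hn, ← Finset.prod_const]
  refine Finset.prod_le_prod' fun p hp => ?_
  have h1 := (Nat.prime_of_mem_primeFactors hp).factorization_pos_of_dvd hn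
    (Nat.dvd_of_mem_primeFactors hp)
  omega

theorem card_two_mul (n : ℕ) (hn : 1 ≤ n) : (2 * n).divisors.card ≤ 2 * n.divisors.card := by
  have h1 : (2 * n).divisors ⊆ n.divisors ∪ n.divisors.image (fun d => 2 * d) := by
    intro d hd
    have hd' := (Nat.mem_divisors.1 hd).1
    rw [Finset.mem_union]
    rcases Nat.even_or_odd' d with ⟨e, he | he⟩
    · right
      rw [Finset.mem_image]
      refine ⟨e, Nat.mem_divisors.2 ⟨?_, by omega⟩, he.symm⟩
      rw [he] at hd'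
      exact Nat.dvd_of_mul_dvd_mul_left (by norm_num) hd'
    · left
      refine Nat.mem_divisors.2 ⟨?_, by omega⟩
      have h2 : Nat.Coprime d 2 := by
        rw [Nat.coprime_two_right]
        exact ⟨e, he⟩
      exact h2.dvd_of_dvd_mul_left hd'
  calc (2 * n).divisors.card ≤ (n.divisors ∪ n.divisors.image (fun d => 2 * d)).card :=
        Finset.card_le_card h1
    _ ≤ n.divisors.card + (n.divisors.image (fun d => 2 * d)).card := Finset.card_union_le _ _
    _ ≤ n.divisors.card + n.divisors.card := Nat.add_le_add_left Finset.card_image_le _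
    _ = 2 * n.divisors.card := by ring

theorem pf_DVB : T_DVB := by
  intro ε hε
  obtain ⟨C, hC, hdiv⟩ := Pool.Agent.H89.Cubic.div_bound (ε / 2) (by positivity)
  refine ⟨C + 2 * C ^ 2, by positivity, fun n hn => ?_⟩
  have hn1 : (1 : ℝ) ≤ n := by exact_mod_cast hn
  have hn0 : (0 : ℝ) < n := by linarith
  have h1 := hdiv n hn
  have hsq : ((n : ℝ) ^ (ε / 2)) ^ 2 = (n : ℝ) ^ ε := by
    rw [← Real.rpow_natCast, ← Real.rpow_mul hn0.le]
    congr 1
    push_cast
    ring
  have hle : (n : ℝ) ^ (ε / 2) ≤ (n : ℝ) ^ ε := Real.rpow_le_rpow_of_exponent_le hn1 (by linarith)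
  have hpos : 0 < (n : ℝ) ^ ε := Real.rpow_pos_of_pos hn0 _
  have hd0 : (0 : ℝ) ≤ (n.divisors.card : ℝ) := Nat.cast_nonneg _
  have hd2 : (n.divisors.card : ℝ) ^ 2 ≤ C ^ 2 * (n : ℝ) ^ ε := by
    calc (n.divisors.card : ℝ) ^ 2 ≤ (C * (n : ℝ) ^ (ε / 2)) ^ 2 := by gcongr
      _ = C ^ 2 * (n : ℝ) ^ ε := by rw [mul_pow, hsq]
  have h2 : ((2 * n).divisors.card : ℝ) ≤ 2 * (n.divisors.card : ℝ) := by
    exact_mod_cast card_two_mul n hn
  have h3 : ((2 : ℝ) ^ n.primeFactors.card) ≤ (n.divisors.card : ℝ) := by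
    exact_mod_cast two_pow_card_le (show n ≠ 0 by omega)
  have hCC : 0 ≤ C ^ 2 * (n : ℝ) ^ ε := by positivity
  have hCe : 0 ≤ C * (n : ℝ) ^ ε := by positivity
  refine ⟨?_, ?_, ?_⟩
  · unfold tau
    have : C * (n : ℝ) ^ (ε / 2) ≤ C * (n : ℝ) ^ ε := by gcongr
    nlinarith
  · unfold tau
    have h4 : (n.divisors.card : ℝ) * ((2 * n).divisors.card : ℝ) ≤
        (n.divisors.card : ℝ) * (2 * (n.divisors.card : ℝ)) := by gcongr
    nlinarith
  · have h4 : (4 : ℝ) ^ n.primeFactors.card = ((2 : ℝ) ^ n.primeFactors.card) ^ 2 := by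
      rw [← pow_mul, mul_comm, pow_mul]; norm_num
    rw [h4]
    have h5 : ((2 : ℝ) ^ n.primeFactors.card) ^ 2 ≤ (n.divisors.card : ℝ) ^ 2 := by gcongr
    nlinarith

end Pool.Agent.H68.AD
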